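import Pool.Agent.Run7.h166.LE.Ext

set_option autoImplicit false

/-! # Lenstra's sets for abelian fields and all groups of rank at least four

(1) Let `F` be a subfield of a cyclotomic field `ℚ(ζ_m)` (i.e. an abelian field), let `c` be prime to `m` and not `1` modulo
the odd primes dividing `m`, let `C` contain the restriction to `F` of the automorphism `ζ_m ↦ ζ_m ^ c`, and let `k` be
arbitrary. For EVERY finitely generated group `W ≤ ℚ^×` of rank at least four which contains an element of odd valuation at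
a prime `l₀ ≥ 5` not dividing `m`, or an element which is no square modulo all primes `p ≡ c` modulo `m` at which
it is a unit, Lenstra's set `𝒮(F, C, W, k)` is infinite; it has at least `κ N / log² N` elements up to
`N`, for arbitrarily large `N`.

(2) Let `a` be a compatible system of residue classes prime to all moduli (an element of the units of the profinite
integers), different from `1` modulo all odd primes.  There are four subgroups `V_i` of `ℚ^×` of rank at most three and ONE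
infinite set `P` of primes such that for EVERY subfield `F` of a cyclotomic field `ℚ(ζ_m)`, every `C` containing the
restriction to `F` of `ζ_m ↦ ζ_m ^ a(m)`, every `k`, and EVERY finitely generated group `W ≤ ℚ^×` which has an element `w`
outside the `V_i` at which the quadratic character of `a` is `-1` (for example every `W` of rank at least four which has an
element where this character is `-1`) all but finitely many elements of `P` belong to `𝒮(F, C, W, k)`, and this set has at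
least `κ N / log² N` elements up to `N`, for arbitrarily large `N`.

(3) For `a = -1` the character is the sign: all `F`, all `C` which contain the complex conjugation, all `W` of rank at least
four which contain a negative number.

Method: simultaneous primitive roots (`Pool.Agent.Run7.h166.SP`, linear sieve and the theorem of Bombieri and Vinogradov;
the groups of `l`-th powers modulo the primes found converge along an ultrafilter to four groups of rank at most three), the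
Frobenius automorphisms of cyclotomic fields, quadratic reciprocity, and the theorem of B. H. Neumann on coverings of a group
by cosets. -/

namespace Pool.Agent.Results.MP_48b1c3_nt.AbelianClassesHighRank

open Finset NumberField

/-- the primes of Q1: `q` is a prime, its Frobenius class lies in `C`, `W` consists of units at `q`, and the index of
`W` modulo `q` divides `k` -/
def Mem (F : IntermediateField ℚ (AlgebraicClosure ℚ)) [NumberField F]
    (C : Set (F ≃ₐ[ℚ] F)) (W : Subgroup ℚˣ) (k q : ℕ) : Prop :=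
  q.Prime ∧
    (∃ σ ∈ C, ∃ Q : Ideal (𝓞 F), Q.IsPrime ∧
        Q.comap (algebraMap ℤ (𝓞 F)) = Ideal.span {(q : ℤ)} ∧
        ∀ a b : 𝓞 F, (b : F) = σ (a : F) → b - a ^ q ∈ Q) ∧
    (∀ w ∈ W, padicValRat q (w : ℚ) = 0) ∧
    (Subgroup.closure {u : (ZMod q)ˣ | ∃ w ∈ W,
        (((w : ℚ).num : ℤ) : ZMod q) = (u : ZMod q) * (((w : ℚ).den : ℕ) : ZMod q)}).index ∣ k

/-- a compatible system of residue classes `a m` prime to `m`, different from `1` modulo the odd primes -/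
structure System (a : ℕ → ℕ) : Prop where
  coprime : ∀ m, 0 < m → (a m).Coprime m
  compatible : ∀ m n : ℕ, 0 < n → m ∣ n → a n ≡ a m [MOD m]
  ne_one : ∀ l : ℕ, l.Prime → l ≠ 2 → ¬ a l ≡ 1 [MOD l]

/-- the quadratic character of the system is `-1` at `w`: `w` is no square modulo all primes in one of the classes -/
def Nonres (a : ℕ → ℕ) (w : ℚ) : Prop :=
  ∃ M : ℕ, 0 < M ∧ ∀ p : ℕ, p.Prime → p ≡ a M [MOD M] → ¬ IsSquare ((w.num * w.den : ℤ) : ZMod p)

/-- four multiplicatively independent elements -/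
def RankGE4 (W : Subgroup ℚˣ) : Prop :=
  ∃ b : Fin 4 → ℚˣ, (∀ j, b j ∈ W) ∧ ∀ e : Fin 4 → ℤ, ∏ j, b j ^ e j = 1 → ∀ j, e j = 0

/-- `F` is contained in `ℚ(ζ)`, `ζ` a primitive `m`-th root of unity, and `σ` is the restriction to `F` of an automorphism
`τ` with `τ ζ = ζ ^ c` -/
def Restriction (m c : ℕ) (F : IntermediateField ℚ (AlgebraicClosure ℚ)) (σ : F ≃ₐ[ℚ] F) : Prop :=
  0 < m ∧ ∃ ζ : AlgebraicClosure ℚ, IsPrimitiveRoot ζ m ∧ F ≤ IntermediateField.adjoin ℚ {ζ} ∧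
    ∃ τ : AlgebraicClosure ℚ ≃ₐ[ℚ] AlgebraicClosure ℚ, τ ζ = ζ ^ c ∧
      ∀ x : F, τ (x : AlgebraicClosure ℚ) = σ x

open Classical in
/-- Lenstra's set for the data `(F, C, W, k)` has at least `κ N / log² N` elements up to `N`, for arbitrarily large `N` -/
def Frequent (F : IntermediateField ℚ (AlgebraicClosure ℚ)) [NumberField F]
    (C : Set (F ≃ₐ[ℚ] F)) (W : Subgroup ℚˣ) (k : ℕ) : Prop :=
  ∃ κ : ℝ, 0 < κ ∧ ∀ A : ℕ, ∃ N ≥ A, κ * (N / Real.log N ^ 2) ≤ #{q ∈ Icc 1 N | Mem F C W k q}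

/-- Lenstra's set has this property and contains all but finitely many elements of `P` -/
def Good (P : Set ℕ) (F : IntermediateField ℚ (AlgebraicClosure ℚ)) [NumberField F]
    (C : Set (F ≃ₐ[ℚ] F)) (W : Subgroup ℚˣ) (k : ℕ) : Prop :=
  Frequent F C W k ∧ {q ∈ P | ¬ Mem F C W k q}.Finite

theorem result :
    -- (1) given `m`, `c`, `F`, `C`, `W`, `k`
    (∀ m c : ℕ, 0 < m → c.Coprime m → (∀ l : ℕ, l.Prime → l ≠ 2 → l ∣ m → ¬ c ≡ 1 [MOD l]) →
      ∀ (F : IntermediateField ℚ (AlgebraicClosure ℚ)) [NumberField F] (C : Set (F ≃ₐ[ℚ] F)) (σ : F ≃ₐ[ℚ] F),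
        Restriction m c F σ → σ ∈ C → ∀ W : Subgroup ℚˣ, W.FG → RankGE4 W →
        (∃ w ∈ W, (∃ l₀ : ℕ, l₀.Prime ∧ 5 ≤ l₀ ∧ ¬ l₀ ∣ m ∧ Odd (padicValRat l₀ (w : ℚ))) ∨
          ∀ p : ℕ, p.Prime → p ≡ c [MOD m] → ¬ p ∣ (w : ℚ).num.natAbs → ¬ p ∣ (w : ℚ).den →
            ¬ IsSquare (((w : ℚ).num * (w : ℚ).den : ℤ) : ZMod p)) →
        ∀ k : ℕ, Frequent F C W k) ∧
    -- (2) one set of primes for all `F`, `C`, `W`, `k`
    (∀ a : ℕ → ℕ, System a → ∃ V : Fin 4 → Subgroup ℚˣ,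
      (∀ i, ∀ b : Fin 4 → ℚˣ, (∀ j, b j ∈ V i) → ∃ e : Fin 4 → ℤ, ∏ j, b j ^ e j = 1 ∧ ∃ j, e j ≠ 0) ∧
      ∃ P : Set ℕ, P.Infinite ∧ (∀ p ∈ P, p.Prime) ∧
      ∀ (m : ℕ) (F : IntermediateField ℚ (AlgebraicClosure ℚ)) [NumberField F] (C : Set (F ≃ₐ[ℚ] F))
        (σ : F ≃ₐ[ℚ] F), Restriction m (a m) F σ → σ ∈ C → ∀ W : Subgroup ℚˣ, W.FG → ∀ k : ℕ,
        ((∃ w ∈ W, Nonres a (w : ℚ) ∧ ∀ i, w ∉ V i) → Good P F C W k) ∧
        ((∃ w ∈ W, Nonres a (w : ℚ)) → RankGE4 W → Good P F C W k)) ∧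
    -- (3) the complex conjugation
    ∃ P : Set ℕ, P.Infinite ∧ (∀ p ∈ P, p.Prime) ∧
      ∀ (m : ℕ) (F : IntermediateField ℚ (AlgebraicClosure ℚ)) [NumberField F] (C : Set (F ≃ₐ[ℚ] F))
        (σ : F ≃ₐ[ℚ] F), Restriction m (m - 1) F σ → σ ∈ C → ∀ W : Subgroup ℚˣ, W.FG → ∀ k : ℕ,
        (∃ w ∈ W, (w : ℚ) < 0) → RankGE4 W → Good P F C W k := by
  classical
  have h1 : ∀ a : ℕ → ℕ, System a → ∃ V : Fin 4 → Subgroup ℚˣ,
      (∀ i, ∀ b : Fin 4 → ℚˣ, (∀ j, b j ∈ V i) → ∃ e : Fin 4 → ℤ, ∏ j, b j ^ e j = 1 ∧ ∃ j, e j ≠ 0) ∧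
      ∃ P : Set ℕ, P.Infinite ∧ (∀ p ∈ P, p.Prime) ∧
      ∀ (m : ℕ) (F : IntermediateField ℚ (AlgebraicClosure ℚ)) [NumberField F] (C : Set (F ≃ₐ[ℚ] F))
        (σ : F ≃ₐ[ℚ] F), Restriction m (a m) F σ → σ ∈ C → ∀ W : Subgroup ℚˣ, W.FG → ∀ k : ℕ,
        ((∃ w ∈ W, Nonres a (w : ℚ) ∧ ∀ i, w ∉ V i) → Good P F C W k) ∧
        ((∃ w ∈ W, Nonres a (w : ℚ)) → RankGE4 W → Good P F C W k) := by
    intro a ha
    obtain ⟨V, hV, P, hP, hPp, h⟩ := Pool.Agent.Run7.h166.LE.main a ha.coprime ha.compatible ha.ne_one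
    refine ⟨V, fun i b hb => ?_, P, hP, hPp, ?_⟩
    · have h2 := hV i b hb
      push Not at h2
      exact h2
    · rintro m F _ C σ ⟨hm, ζ, hζ, hF, τ, hτ, hσ⟩ hσC W hW k
      have h3 := h m hm ζ hζ F hF τ hτ C σ hσC hσ W hW k
      refine ⟨fun h4 => ?_, fun h4 h5 => ?_⟩
      · obtain ⟨⟨κ, hκ, h6⟩, h7⟩ := h3 (Or.inl h4)
        refine ⟨⟨κ, hκ, fun A => ?_⟩, h7⟩
        obtain ⟨N, hN, h8⟩ := h6 A
        refine ⟨N, hN, h8.trans (le_of_eq ?_)⟩
        congr
      · obtain ⟨⟨κ, hκ, h6⟩, h7⟩ := h3 (Or.inr ⟨h4, h5⟩)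
        refine ⟨⟨κ, hκ, fun A => ?_⟩, h7⟩
        obtain ⟨N, hN, h8⟩ := h6 A
        refine ⟨N, hN, h8.trans (le_of_eq ?_)⟩
        congr
  refine ⟨?_, h1, ?_⟩
  · rintro m c hm hc hc1 F _ C σ ⟨-, ζ, hζ, hF, τ, hτ, hσ⟩ hσC W hW hr ⟨w, hw, hcase⟩ k
    obtain ⟨a, ha, hac, hal, ham, haw⟩ : ∃ a : ℕ → ℕ, (∀ m, 0 < m → (a m).Coprime m) ∧
        (∀ m n, 0 < n → m ∣ n → a n ≡ a m [MOD m]) ∧ (∀ l, l.Prime → l ≠ 2 → ¬ a l ≡ 1 [MOD l]) ∧
        a m ≡ c [MOD m] ∧ Nonres a (w : ℚ) := by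
      rcases hcase with ⟨l₀, hl₀, h5, hl₀m, hodd⟩ | hsq
      · exact Pool.Agent.Run7.h166.LE.exists_system m c hm hc hc1 w l₀ hl₀ h5 hl₀m hodd
      · obtain ⟨l₁, h2, hl₁⟩ := Nat.exists_infinite_primes (m + 5)
        have hl₁0 : (l₁ : ℚ) ≠ 0 := by exact_mod_cast hl₁.ne_zero
        obtain ⟨a, ha, hac, hal, ham, -⟩ := Pool.Agent.Run7.h166.LE.exists_system m c hm hc hc1
          (Units.mk0 (l₁ : ℚ) hl₁0) l₁ hl₁ (by omega) (fun h3 => by
            have := Nat.le_of_dvd hm h3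
            omega) (by
            rw [Units.val_mk0, padicValRat.self hl₁.one_lt]
            exact odd_one)
        have hM : 0 < m * ((w : ℚ).num.natAbs * (w : ℚ).den) :=
          Nat.mul_pos hm (Nat.mul_pos (Int.natAbs_pos.2 (Rat.num_ne_zero.2 w.ne_zero)) (w : ℚ).den_pos)
        refine ⟨a, ha, hac, hal, ham, _, hM, fun p hp hpM => ?_⟩
        have hcop : p.Coprime (m * ((w : ℚ).num.natAbs * (w : ℚ).den)) := by
          unfold Nat.Coprime
          rw [Nat.ModEq.gcd_eq hpM]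
          exact ha _ hM
        have h6 : p ≡ c [MOD m] := ((hpM.of_dvd (dvd_mul_right _ _)).trans
          (hac m _ hM (dvd_mul_right _ _))).trans ham
        refine hsq p hp h6 (fun h7 => ?_) (fun h7 => ?_)
        · exact hp.coprime_iff_not_dvd.1 hcop ((h7.mul_right _).mul_left _)
        · exact hp.coprime_iff_not_dvd.1 hcop ((h7.mul_left _).mul_left _)
    obtain ⟨V, -, P, -, -, h⟩ := h1 a ⟨ha, hac, hal⟩
    refine ((h m F C σ ⟨hm, ζ, hζ, hF, τ, ?_, hσ⟩ hσC W hW k).2 ⟨w, hw, haw⟩ hr).1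
    rw [hτ]
    exact (pow_eq_pow_of_modEq ham hζ.pow_eq_one).symm
  · obtain ⟨V, -, P, hP, hPp, h⟩ := h1 (fun m => m - 1)
      ⟨Pool.Agent.Run7.h166.LE.minus_one.1, Pool.Agent.Run7.h166.LE.minus_one.2.1,
        Pool.Agent.Run7.h166.LE.minus_one.2.2⟩
    refine ⟨P, hP, hPp, ?_⟩
    rintro m F _ C σ hR hσC W hW k ⟨w, hw, hw0⟩ h5
    exact (h m F C σ hR hσC W hW k).2 ⟨w, hw, Pool.Agent.Run7.h166.LE.neg_nonres w hw0⟩ h5

end Pool.Agent.Results.MP_48b1c3_nt.AbelianClassesHighRank
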