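import Pool.Agent.Run7.h414.DP.Alm
import Pool.Agent.Results.MP_48b1c3_nt.DigitFamilies

/-!
# Lenstra's density for almost all random integers with determinantal digits, at every `x` up to a power of their size

(1) `W = ⟨D n ^ 2⟩`, cyclotomic `F`, arbitrary `k`: the explicit series of Lenstra with the quadratic entanglement.
(2) `W = ⟨W₀, D n ^ r⟩`, arbitrary `(F, C, k)` and `W₀`, for the members `n` which are exactly divisible by a large prime.

The digits of the random integer `v` are given by a determinantal random set `S` of positions (a determinantal point process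
with an arbitrary Hermitian kernel): the digit number `i` is `y i` if `i ∈ S` and `x i ≠ y i` otherwise. Examples (their
existence is not used and not formalised): the edges of a uniform spanning tree of a graph with `k` edges; stationary
determinantal processes with any symbol which is not almost everywhere `0` or almost everywhere `1` (for example the discrete
sine process with any density); independent digits; and all the events for such processes whose probability is at least
`1 / k ^ t`, for example a prescribed number of elements of `S`.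

Definitions used (in `Pool.Agent.Run7.h414.DP.Law`, `Pool.Agent.Run7.h414.DP.Fam` and `Pool.Agent.Run7.h414.DP.Alm`):
`DetLaw`, `GoodPos`, `DetDigits`, `AlmostD`.

Method: the characteristic function is `det (1 + D A)`; the inequality `|det N|² ≤ exp (tr N* N - k)` for
`N = 1 + B D B*`, `A = B* B`, bounds it by `exp (- E)` with an energy `E` which is at least a constant times the number of
the places where the frequency is far from the rational numbers with small denominators. The passage to the second moments is from the starting files (`Pool.Agent.R459.Eq7`, `Pool.Agent.H771R4`,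
`Pool.Agent.W171.LG`). The definitions `S`, `δ` are those of the starting results `EntangledOnAverage` (the number of primes
`p ≤ x` whose class modulo `f` belongs to `A` and modulo which the subgroup generated by `u` has an index dividing `m`;
Lenstra's series for `⟨D n ^ 2⟩`) and `FewExceptions` (the number of the primes `q ≤ x` in `𝒮(F, C, W, k)`; Lenstra's density
`δ(F, C, W, k)` of Q1); `Holds`, `Generic` are in the starting result `DigitFamilies`: `|cf x - δ π(x)| ≤ ε π(x)` for EVERY
`x ≥ X` with `x ^ W ≤ N`; `n` is positive and exactly divisible by a prime `p > P`.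
-/

set_option autoImplicit false

namespace Pool.Agent.Results.MP_48b1c3_nt.DeterminantalFamilies

open Finset Filter NumberField
open Pool.Agent.R459.EqD (cntZ dat_all)
open Pool.Agent.H771R4.SE (Dat cntE)
open Pool.Agent.N794.CG (Mostly)
open Pool.Agent.Results.MP_48b1c3_nt.DigitFamilies (Holds Generic cntZ_nat)
open Pool.Agent.Run7.h414.DP (DetDigits AlmostD almostD_of almostD_mono det_dom)

/-- from the laws to the family -/
theorem main (b L : ℕ) (hb : 2 ≤ b) (η : ℝ) (hη : 0 < η) :
    ∃ W : ℕ, 1 ≤ W ∧ ∀ κ : ℤ, κ ≠ 0 → ∀ (d : Dat) (ε : ℝ), 0 < ε →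
    ∃ (C : ℝ) (X₀ : ℕ), 0 < C ∧ 1 ≤ X₀ ∧ ∀ (t k X : ℕ), X₀ ≤ X → ∀ p : ℕ → ℝ, DetDigits b L η t k p → ∀ c : ℤ,
      AlmostD b k p κ c ((k : ℝ) ^ t * (C * (Real.log X / X))) (fun n => Holds (cntZ d n) d.A ε X W (b ^ k)) := by
  classical
  obtain ⟨γ, hγ0, hγ1, hdom⟩ := det_dom b L hb η hη
  obtain ⟨W, hW, K⟩ := dat_all b hb L γ hγ0 hγ1
  refine ⟨W, hW, fun κ hκ d ε hε => ?_⟩
  obtain ⟨C, X₀, hC, hX₀, J⟩ := K ((b ^ (L + 1)).factorial) κ (Nat.factorial_pos _) hκ d ε hε
  refine ⟨C, X₀, hC, by omega, fun t k X hX p hp c => ?_⟩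
  have hlog : 0 ≤ Real.log X / X := by
    apply div_nonneg (Real.log_nonneg _) (Nat.cast_nonneg _)
    exact_mod_cast (by omega : 1 ≤ X)
  refine almostD_of (hdom t k p hp κ c (fun n => Holds (cntZ d n) d.A ε X W (b ^ k)) _ (by positivity)
    fun ι Ω w v hdec E hE hbad => J k X hX ι Ω w v hdec E hE fun i hi => ?_) fun n hn => hn
  have hn := hbad i hi
  unfold Holds at hn
  push Not at hn
  exact hn

/-- **Theorem.** Let `b ≥ 2`, `L` and `η > 0`. There is `W` such that for all `κ ≠ 0` the following holds.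

(1) Let `f ≥ 1`, let `A` be a set of residue classes prime to `f`, and let `m ≥ 1`, `D ≠ 0` and `ε > 0`. There are `C` and
`X₀` such that for all `t`, `k`, all `X ≥ X₀`, all `p` which are dominated, up to the factor `k ^ t`, by the distribution of an
integer with `k` determinantal digits (`DetDigits b L η t k p`) and ALL integers `c`: up to a `p`-weight of at most
`C k ^ t log X / X` the integers `n = c + κ v` satisfy: for EVERY `x ≥ X` with
`x ^ W ≤ b ^ k`, the number of the primes `p ≤ x` whose class modulo `f` belongs to `A` and modulo which the index of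
`⟨D n ^ 2⟩` divides `m` is `δ π(x)` up to an error of at most `ε π(x)`, where `δ = δ f A m D` is Lenstra's series.

(2) Let `(F, C, m)` be as in Q1, let `W₀` be a finitely generated subgroup of `ℚˣ`, `D ∈ ℚˣ`, and `r ≥ 1` such that
`ℓ ^ (ν_ℓ(m) + 1)` divides `r` for all primes `ℓ ∣ r` (every `r` if `m = 1`), `ε > 0`. There are `C'`, `P` and `X₀` such
that for all `t`, `k`, `p` as before, all `X ≥ X₀` and all integers `c`: up to a `p`-weight of at most `C' k ^ t log X / X`
the integers `n = c + κ v` have the following property, if they are positive and exactly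
divisible by some prime `> P`: for EVERY `x ≥ X` with `x ^ W ≤ b ^ k`, the number of the primes up to `x` in
`𝒮(F, C, ⟨W₀, D n ^ r⟩, m)` is `δ(F, C, ⟨W₀, D n ^ r⟩, m) π(x)` up to an error of at most `ε π(x)`. -/
theorem result (b L : ℕ) (hb : 2 ≤ b) (η : ℝ) (hη : 0 < η) : ∃ W : ℕ, 1 ≤ W ∧ ∀ κ : ℤ, κ ≠ 0 →
    (∀ (f : ℕ) [NeZero f] (A : Finset (ZMod f)ˣ) (m : ℕ), 1 ≤ m → ∀ D : ℤ, D ≠ 0 → ∀ ε : ℝ, 0 < ε →
      ∃ (C : ℝ) (X₀ : ℕ), ∀ t k X : ℕ, X₀ ≤ X → ∀ p : ℕ → ℝ, DetDigits b L η t k p → ∀ c : ℤ,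
        AlmostD b k p κ c ((k : ℝ) ^ t * (C * (Real.log X / X))) (fun n =>
          Holds (EntangledOnAverage.S f A m (D * n ^ 2)) (EntangledOnAverage.δ f A m D) ε X W (b ^ k))) ∧
    (∀ (F : IntermediateField ℚ (AlgebraicClosure ℚ)) [NumberField F] [IsGalois ℚ F]
      (C : Set (F ≃ₐ[ℚ] F)) (W₀ : Subgroup ℚˣ) (m : ℕ) (D : ℚˣ) (r : ℕ),
      (∀ σ ∈ C, ∀ τ : F ≃ₐ[ℚ] F, τ * σ * τ⁻¹ ∈ C) → W₀.FG → 0 < m →
      0 < r → (∀ l : ℕ, l.Prime → l ∣ r → l ^ (m.factorization l + 1) ∣ r) →
      ∀ ε : ℝ, 0 < ε → ∃ (C' : ℝ) (P X₀ : ℕ), ∀ t k X : ℕ, X₀ ≤ X → ∀ p : ℕ → ℝ, DetDigits b L η t k p → ∀ c : ℤ,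
        AlmostD b k p κ c ((k : ℝ) ^ t * (C' * (Real.log X / X))) (fun n => Generic P n →
          Holds (FewExceptions.S F C (W₀ ⊔ Subgroup.closure {w : ℚˣ | (w : ℚ) = (D : ℚ) * (n : ℚ) ^ r}) m)
            (FewExceptions.δ F C (W₀ ⊔ Subgroup.closure {w : ℚˣ | (w : ℚ) = (D : ℚ) * (n : ℚ) ^ r}) m) ε X W
            (b ^ k))) := by
  classical
  obtain ⟨W, hW, H⟩ := main b L hb η hη
  refine ⟨W, hW, fun κ hκ => ⟨fun f _ A m hm D hD ε hε => ?_, fun F _ _ C W₀ m D r hC hW₀ hm hr hrm ε hε => ?_⟩⟩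
  · have hfD : NeZero (Pool.Agent.H981R3.LN2.fD f D) := ⟨Pool.Agent.H981R3.LN2.fD_ne hD⟩
    obtain ⟨C, X₀, _, _, h⟩ := H κ hκ (Pool.Agent.H981R3.LN2.dLen2 f A m (by omega) D hD) ε hε
    refine ⟨C, X₀, fun t k X hX p hp c => ?_⟩
    refine almostD_mono (Pool.Agent.Run7.h414.DP.det_nonneg hp) (h t k X hX p hp c) fun n hn x hx1 hx2 => ?_
    have h5 := hn x hx1 hx2
    have e : EntangledOnAverage.S f A m (D * n ^ 2) x =
        cntZ (Pool.Agent.H981R3.LN2.dLen2 f A m (by omega) D hD) n x := by
      unfold cntZ Pool.Agent.H386R2.Artin.PP EntangledOnAverage.S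
      rw [filter_filter]
      apply congrArg Finset.card
      apply Finset.filter_congr_decidable _ _ _ |>.symm.trans
      apply Finset.filter_congr
      intro p _
      simp only [Pool.Agent.H981R3.LN2.dLen2, Int.cast_mul, Int.cast_pow]
      rfl
    rw [e, EntangledOnAverage.δ_eq f A m D]
    exact h5
  · obtain ⟨d, hd⟩ := Pool.Agent.W171.LG.coreR F C W₀ m D hC hW₀ hm.ne' hr hrm
    obtain ⟨P0, x0, hcore⟩ := hd ε hε
    obtain ⟨C', X₀, _, _, h⟩ := H κ hκ d (ε / 2) (by positivity)
    refine ⟨C', P0, X₀ + x0, fun t k X hX p hp c => ?_⟩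
    refine almostD_mono (Pool.Agent.Run7.h414.DP.det_nonneg hp) (h t k X (by omega) p hp c) fun n hn hgen x hx1 hx2 => ?_
    obtain ⟨hn0, p, hp, hpP, hpn, hp2⟩ := hgen
    obtain ⟨n', rfl⟩ : ∃ n' : ℕ, n = n' := ⟨n.toNat, (Int.toNat_of_nonneg hn0.le).symm⟩
    have hn0' : n' ≠ 0 := by omega
    have hG : Pool.Agent.W171.LG.Gen P0 n' := ⟨p, hp, hpP, by exact_mod_cast hpn, fun h => hp2 (by exact_mod_cast h)⟩
    by_contra hcon
    push Not at hcon
    have h5 := hn x hx1 hx2
    rw [cntZ_nat] at h5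
    rw [Int.cast_natCast, Pool.Agent.W171.LG.gp_eqR W₀ D r hn0'] at hcon
    have h6 := hcore n' hn0' hG x (by omega) hcon
    linarith

end Pool.Agent.Results.MP_48b1c3_nt.DeterminantalFamilies
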