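import Pool.Agent.Run7.h582.FM.Es1
import Pool.Agent.R459.Eq7
import Pool.Agent.Results.MP_48b1c3_nt.EntangledOnAverage
import Pool.Agent.Results.MP_48b1c3_nt.FewExceptions

/-!
# Lenstra's density for the groups generated by ALL integers near `lam n * x + c n`, for almost every `x` with respect to
every measure with polynomial Fourier decay

Let `N n ≥ exp (n ^ η)` and let `lam n`, `c n` be real numbers with `N n / log ^ T (N n) ≤ lam n ≤ B N n` and
`|c n| ≤ B N n`. The theorem is about ALL the integers `a` at a distance of at most `log ^ V (N n)` from `lam n * x + c n`, for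
all large `n`, for almost every `x` with respect to EVERY finite Borel measure `μ` with bounded support whose Fourier transform
is `O (|ξ| ^ (-δ))` for some `δ > 0` (such measures can live on sets of an arbitrarily small positive Hausdorff dimension).

Method: a measure with polynomial Fourier decay is replaced by finite families of real numbers with the same exponential
sums (`Pool.Agent.Run7.h582.FM`); the characteristic functions of the integer parts of the members decay at all frequencies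
with many binary digits far from those of an integer (with the theorem on integer parts of helper193, `Pool.Agent.N193.PS`);
from there the passage to sums over primes of functions of residues is from the starting files (`Pool.Agent.R459.Eq`, and
helper794's form of it, `Pool.Agent.N794.CG`), and then the lemma of Borel and Cantelli is used.
The density series and the counting functions are those of the starting results `EntangledOnAverage` and `FewExceptions` of
this problem, and the treatment of the large indices is from `Pool.Agent.R459.EqD`.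
-/

set_option autoImplicit false
set_option maxHeartbeats 4000000

namespace Pool.Agent.Results.MP_48b1c3_nt.FourierDecayGenerators

open Finset Filter NumberField MeasureTheory
open Pool.Agent.R459.EqD (cntZ)
open Pool.Agent.H771R4.SE (Dat cntE)

/-- `N n ≥ exp (n ^ η)`, `|c n| ≤ B N n` and `N n / log ^ T (N n) ≤ lam n ≤ B N n` for large `n`. -/
def Scales (η : ℝ) (B T : ℕ) (N : ℕ → ℕ) (lam c : ℕ → ℝ) : Prop :=
  ∀ᶠ n : ℕ in atTop, Real.exp ((n : ℝ) ^ η) ≤ N n ∧ |c n| ≤ B * N n ∧ lam n ≤ B * N n ∧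
    (N n : ℝ) ≤ lam n * Real.log (N n) ^ T

/-- The distance of the integer `q` from the real number `y` is at most `log ^ V N`. -/
def Near (V N : ℕ) (y : ℝ) (q : ℤ) : Prop := |(q : ℝ) - y| ≤ Real.log N ^ V

/-- The range of the bounds for the primes: `log ^ L N ≤ X ≤ N ^ (1 / W)`. -/
def InRange (L W N X : ℕ) : Prop := Real.log N ^ L ≤ X ∧ (X : ℝ) ^ W ≤ N

/-- `μ` is a finite Borel measure with bounded support and its Fourier transform `ξ ↦ ∫ exp (i ξ t) dμ (t)` is
`O (|ξ| ^ (-δ))` for some `δ > 0`. -/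
def FourierDecay (μ : Measure ℝ) : Prop :=
  IsFiniteMeasure μ ∧ (∃ R : ℝ, μ (Set.Icc (-R) R)ᶜ = 0) ∧ ∃ C δ : ℝ, 0 < δ ∧ ∀ ξ : ℝ, ξ ≠ 0 →
    ‖∫ t : ℝ, Complex.exp (((ξ * t : ℝ) : ℂ) * Complex.I) ∂μ‖ ≤ C * |ξ| ^ (-δ)

/-- `|f X - δ π(X)| ≤ ε π(X)` -/
def Close (f : ℕ) (δ ε : ℝ) (X : ℕ) : Prop :=
  |(f : ℝ) - δ * (Nat.primeCounting X : ℝ)| ≤ ε * (Nat.primeCounting X : ℝ)

/-- the integer `n` is positive and exactly divisible by a prime `p > P` -/
def Generic (P : ℕ) (n : ℤ) : Prop := 0 < n ∧ ∃ p : ℕ, p.Prime ∧ P < p ∧ (p : ℤ) ∣ n ∧ ¬ ((p : ℤ) ^ 2 ∣ n)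

lemma cntZ_nat (d : Dat) (n x : ℕ) : cntZ d (n : ℤ) x = cntE d n x := by
  classical
  unfold cntZ cntE Pool.Agent.H386R2.Artin.PP
  rw [filter_filter]
  apply congrArg Finset.card
  apply Finset.filter_congr
  intro p _
  rw [Int.cast_natCast]

/-- the principle for one datum -/
theorem main (μ : Measure ℝ) (hμ : FourierDecay μ) : ∃ W : ℕ, 1 ≤ W ∧ ∀ η : ℝ, 0 < η → ∀ V : ℕ, ∃ L : ℕ,
    ∀ (B T : ℕ) (N : ℕ → ℕ) (lam c : ℕ → ℝ), Scales η B T N lam c → ∀ (d : Dat) (ε : ℝ), 0 < ε →
      ∀ᵐ x ∂μ, ∀ᶠ n : ℕ in atTop, ∀ a : ℤ, Near V (N n) (lam n * x + c n) a → ∀ X : ℕ, InRange L W (N n) X →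
        Close (cntZ d a X) d.A ε X := by
  classical
  obtain ⟨A, _, H⟩ := Pool.Agent.Run7.h582.FM.ae_scale1 Pool.Agent.Run7.h582.FM.CD Pool.Agent.Run7.h582.FM.hasCls_cd μ hμ
  obtain ⟨W, hW, K⟩ := Pool.Agent.R459.EqD.dat_all 2 le_rfl A (1 / 2) (by norm_num) (by norm_num)
  refine ⟨2 * W, by omega, fun η hη V => ?_⟩
  obtain ⟨U, hU⟩ := H η hη V 1
  refine ⟨U + 1, fun B T N lam c hS d ε hε => ?_⟩
  obtain ⟨C, X₀, _, _, J⟩ := K 1 1 le_rfl one_ne_zero d ε hε
  obtain ⟨N₀, hN₀⟩ := Pool.Agent.Run7.h582.FM.cd_range A W (fun X a => Close (cntZ d a X) d.A ε X) C X₀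
    (fun k X hX ι Ω w v hdec E hE hbad => J k X hX ι Ω w v hdec E hE fun i hi => by
      obtain ⟨x, h1, h2, h3⟩ := hbad i hi
      unfold Close at h3
      push Not at h3
      exact ⟨x, h1, h2, h3⟩) T U
  have hNr : Tendsto (fun n : ℕ => (N n : ℝ)) atTop atTop := by
    have h1 : Tendsto (fun n : ℕ => Real.exp ((n : ℝ) ^ η)) atTop atTop :=
      Real.tendsto_exp_atTop.comp ((tendsto_rpow_atTop hη).comp tendsto_natCast_atTop_atTop)
    exact tendsto_atTop_mono' _ (hS.mono fun n hn => hn.1) h1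
  have hlogr : Tendsto (fun n : ℕ => Real.log (N n)) atTop atTop := Real.tendsto_log_atTop.comp hNr
  have key := hU B T N lam c hS (fun _ => 1) (fun n _ a => ∀ X : ℕ, Real.log (N n) ^ (U + 1) ≤ X → (X : ℝ) ^ (2 * W) ≤ N n →
      Close (cntZ d a X) d.A ε X) (by
    filter_upwards [hlogr.eventually_ge_atTop 1] with n hn
    rw [pow_one]
    exact_mod_cast hn) (by
    filter_upwards [hNr.eventually_ge_atTop (N₀ : ℝ)] with n hn k hk1 _ _ τ S w hS0 hcd
    refine le_trans (le_of_eq ?_) (hN₀ (N n) (by exact_mod_cast hn) k hk1 τ S w hS0 hcd)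
    congr!)
  filter_upwards [key] with x hx
  filter_upwards [hx] with n hn a ha X hX
  exact hn a ha 0 X hX.1 hX.2

/-- Let `μ` be a measure with `FourierDecay`. There is `W` such that for all `η > 0` and `V` there is `L` such that for all
sequences with `Scales η B T N lam c` the following two assertions hold.

**(1)** Let `q ≥ 1`, let `A` be a set of residue classes prime to `q`, and let `m ≥ 1`, `D ≠ 0` and `ε > 0`. For `μ`-almost every
`x`, for all large `n`, for ALL the integers `a` at a distance of at most `log ^ V (N n)` from `lam n * x + c n` and EVERY `X`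
with `log ^ L (N n) ≤ X`, `X ^ W ≤ N n`: the number of the primes `p ≤ X` whose class modulo `q` belongs to `A` and modulo which
the index of `⟨D a ^ 2⟩` divides `m` is `δ π(X)` up to an error of at most `ε π(X)`, where `δ = δ q A m D` is Lenstra's series
(with the entanglement of the quadratic field of `D`).

**(2)** Let `(F, C, m)` be as in Q1, let `W₀` be a finitely generated subgroup of `ℚˣ`, `D ∈ ℚˣ`, and `r ≥ 1` such that
`ℓ ^ (ν_ℓ(m) + 1)` divides `r` for all primes `ℓ ∣ r` (every `r` if `m = 1`), `ε > 0`. There is `P` such that for `μ`-almost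
every `x`, for all large `n`, for ALL the integers `a` at a distance of at most `log ^ V (N n)` from `lam n * x + c n` which are
positive and exactly divisible by some prime `p > P` and EVERY `X` with `log ^ L (N n) ≤ X`, `X ^ W ≤ N n`: the number of the
primes up to `X` in `𝒮(F, C, ⟨W₀, D a ^ r⟩, m)` is `δ(F, C, ⟨W₀, D a ^ r⟩, m) π(X)` up to an error of at most `ε π(X)`. -/
theorem result (μ : Measure ℝ) (hμ : FourierDecay μ) :
    ∃ W : ℕ, 1 ≤ W ∧ ∀ η : ℝ, 0 < η → ∀ V : ℕ, ∃ L : ℕ,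
      ∀ (B T : ℕ) (N : ℕ → ℕ) (lam c : ℕ → ℝ), Scales η B T N lam c →
      (∀ (q : ℕ) [NeZero q] (A : Finset (ZMod q)ˣ) (m : ℕ), 1 ≤ m → ∀ D : ℤ, D ≠ 0 → ∀ ε : ℝ, 0 < ε →
        ∀ᵐ x ∂μ, ∀ᶠ n : ℕ in atTop, ∀ a : ℤ, Near V (N n) (lam n * x + c n) a → ∀ X : ℕ, InRange L W (N n) X →
          Close (EntangledOnAverage.S q A m (D * a ^ 2) X) (EntangledOnAverage.δ q A m D) ε X) ∧
      (∀ (F : IntermediateField ℚ (AlgebraicClosure ℚ)) [NumberField F] [IsGalois ℚ F]
        (C : Set (F ≃ₐ[ℚ] F)) (W₀ : Subgroup ℚˣ) (m : ℕ) (D : ℚˣ) (r : ℕ),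
        (∀ σ ∈ C, ∀ τ : F ≃ₐ[ℚ] F, τ * σ * τ⁻¹ ∈ C) → W₀.FG → 0 < m →
        0 < r → (∀ l : ℕ, l.Prime → l ∣ r → l ^ (m.factorization l + 1) ∣ r) →
        ∀ ε : ℝ, 0 < ε → ∃ P : ℕ, ∀ᵐ x ∂μ, ∀ᶠ n : ℕ in atTop, ∀ a : ℤ, Near V (N n) (lam n * x + c n) a → Generic P a →
          ∀ X : ℕ, InRange L W (N n) X →
            Close (FewExceptions.S F C (W₀ ⊔ Subgroup.closure {w : ℚˣ | (w : ℚ) = (D : ℚ) * (a : ℚ) ^ r}) m X)
              (FewExceptions.δ F C (W₀ ⊔ Subgroup.closure {w : ℚˣ | (w : ℚ) = (D : ℚ) * (a : ℚ) ^ r}) m) ε X) := by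
  classical
  obtain ⟨W, hW, H⟩ := main μ hμ
  refine ⟨W, hW, fun η hη V => ?_⟩
  obtain ⟨L, hL⟩ := H η hη V
  refine ⟨L + 1, fun B T N lam c hS => ⟨fun q _ A m hm D hD ε hε => ?_, fun F _ _ C W₀ m D r hC hW₀ hm hr hrm ε hε => ?_⟩⟩
  · have hNr : Tendsto (fun n : ℕ => (N n : ℝ)) atTop atTop := by
      have h1 : Tendsto (fun n : ℕ => Real.exp ((n : ℝ) ^ η)) atTop atTop :=
        Real.tendsto_exp_atTop.comp ((tendsto_rpow_atTop hη).comp tendsto_natCast_atTop_atTop)
      exact tendsto_atTop_mono' _ (hS.mono fun n hn => hn.1) h1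
    have hlogr : Tendsto (fun n : ℕ => Real.log (N n)) atTop atTop := Real.tendsto_log_atTop.comp hNr
    have hfD : NeZero (Pool.Agent.H981R3.LN2.fD q D) := ⟨Pool.Agent.H981R3.LN2.fD_ne hD⟩
    filter_upwards [hL B T N lam c hS (Pool.Agent.H981R3.LN2.dLen2 q A m (by omega) D hD) ε hε] with x hx
    filter_upwards [hx, hlogr.eventually_ge_atTop 1] with n hn hl1 a ha X hX
    have h5 := hn a ha X ⟨(pow_le_pow_right₀ hl1 (by omega)).trans hX.1, hX.2⟩
    have e : EntangledOnAverage.S q A m (D * a ^ 2) X =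
        cntZ (Pool.Agent.H981R3.LN2.dLen2 q A m (by omega) D hD) a X := by
      unfold cntZ Pool.Agent.H386R2.Artin.PP EntangledOnAverage.S
      rw [filter_filter]
      apply congrArg Finset.card
      apply Finset.filter_congr_decidable _ _ _ |>.symm.trans
      apply Finset.filter_congr
      intro p _
      simp only [Pool.Agent.H981R3.LN2.dLen2, Int.cast_mul, Int.cast_pow]
      rfl
    rw [e, EntangledOnAverage.δ_eq q A m D]
    exact h5
  · have hNr : Tendsto (fun n : ℕ => (N n : ℝ)) atTop atTop := by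
      have h1 : Tendsto (fun n : ℕ => Real.exp ((n : ℝ) ^ η)) atTop atTop :=
        Real.tendsto_exp_atTop.comp ((tendsto_rpow_atTop hη).comp tendsto_natCast_atTop_atTop)
      exact tendsto_atTop_mono' _ (hS.mono fun n hn => hn.1) h1
    have hlogr : Tendsto (fun n : ℕ => Real.log (N n)) atTop atTop := Real.tendsto_log_atTop.comp hNr
    obtain ⟨d, hd⟩ := Pool.Agent.W171.LG.coreR F C W₀ m D hC hW₀ hm.ne' hr hrm
    obtain ⟨P0, x0, hcore⟩ := hd ε hε
    refine ⟨P0, ?_⟩
    filter_upwards [hL B T N lam c hS d (ε / 2) (by positivity)] with x hx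
    filter_upwards [hx, hlogr.eventually_ge_atTop (1 + x0)] with n hn hl1 a ha hgen X hX
    have hx00 : (0 : ℝ) ≤ x0 := Nat.cast_nonneg _
    have hl1' : 1 ≤ Real.log (N n) := by linarith
    have h5 := hn a ha X ⟨(pow_le_pow_right₀ hl1' (by omega)).trans hX.1, hX.2⟩
    have hxX : x0 ≤ X := by
      have h6 : (x0 : ℝ) ≤ X := by
        calc (x0 : ℝ) ≤ Real.log (N n) := by linarith
          _ = Real.log (N n) ^ 1 := (pow_one _).symm
          _ ≤ Real.log (N n) ^ (L + 1) := pow_le_pow_right₀ hl1' (by omega)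
          _ ≤ X := hX.1
      exact_mod_cast h6
    obtain ⟨hn0, p, hp, hpP, hpn, hp2⟩ := hgen
    obtain ⟨n', rfl⟩ : ∃ n' : ℕ, a = n' := ⟨a.toNat, (Int.toNat_of_nonneg hn0.le).symm⟩
    have hn0' : n' ≠ 0 := by omega
    have hG : Pool.Agent.W171.LG.Gen P0 n' := ⟨p, hp, hpP, by exact_mod_cast hpn, fun h => hp2 (by exact_mod_cast h)⟩
    by_contra hcon
    unfold Close at hcon h5
    push Not at hcon
    rw [cntZ_nat] at h5
    rw [Int.cast_natCast, Pool.Agent.W171.LG.gp_eqR W₀ D r hn0'] at hcon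
    have h6 := hcore n' hn0' hG X hxX hcon
    linarith

end Pool.Agent.Results.MP_48b1c3_nt.FourierDecayGenerators
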