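import Pool.Agent.Run7.h710.TR.E
import Pool.Agent.R459.Eq7
import Pool.Agent.Results.MP_48b1c3_nt.EntangledOnAverage
import Pool.Agent.Results.MP_48b1c3_nt.FewExceptions

/-!
# Lenstra's density for almost all groups generated by integers written by a transducer

The integers `v < a ^ k` are arbitrary, up to few exceptions; the transducer `T` reads the digits of `v` in base `a` and
writes the digits of `T(v)` in base `b` (definitions in `Pool.Agent.Run7.h710.TR.Defs`).

Method: if two words of `L` digits lead from the same state to the same state and different words are written, then the two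
parts of the exponential sum over the integers `T(v)` which belong to these words cancel in part at the places where the
frequency has a digit which is not extremal. The passage from such exponential sums to sums over primes of functions of residues, for almost
all members of a family, is from the starting library (`Pool.Agent.R459.Eq`; the density series
and the counting functions are those of the starting results `EntangledOnAverage` and `FewExceptions` of this problem).

Examples: the bitwise conjunction or disjunction of `v` and `m v` (the carries are the states); the integer whose digit `i`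
is `f(x_i, x_{i+1}, …, x_{i+r})`, where `x_i` are the digits of `v` and `f` is not constant (one-sided cellular automata).
-/

set_option autoImplicit false

namespace Pool.Agent.Results.MP_48b1c3_nt.TransducerGenerators

open Finset Filter NumberField Pool.Agent.Run7.h710.TR
open Pool.Agent.N794.CG (Mostly)
open Pool.Agent.R459.EqD (cntZ dat_all)
open Pool.Agent.H771R4.SE (Dat cntE)

/-- `|cf x - δ π(x)| ≤ ε π(x)` for EVERY `x ≥ X` with `x ^ W ≤ N`. -/
def Holds (cf : ℕ → ℕ) (δ ε : ℝ) (X W N : ℕ) : Prop :=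
  ∀ x : ℕ, X ≤ x → x ^ W ≤ N → |(cf x : ℝ) - δ * (Nat.primeCounting x : ℝ)| ≤ ε * (Nat.primeCounting x : ℝ)

/-- the integer `n` is positive and exactly divisible by a prime `p > P` -/
def Generic (P : ℕ) (n : ℤ) : Prop := 0 < n ∧ ∃ p : ℕ, p.Prime ∧ P < p ∧ (p : ℤ) ∣ n ∧ ¬ ((p : ℤ) ^ 2 ∣ n)

lemma cntZ_nat (d : Dat) (n x : ℕ) : cntZ d (n : ℤ) x = cntE d n x := by
  classical
  unfold cntZ cntE Pool.Agent.H386R2.Artin.PP
  rw [filter_filter]
  apply congrArg Finset.card
  apply Finset.filter_congr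
  intro p _
  rw [Int.cast_natCast]

/-- data of Artin type -/
theorem dat_tr (a b L : ℕ) (hb : 2 ≤ b) (hL : 1 ≤ L) : ∃ W : ℕ, 1 ≤ W ∧
    ∀ κ : ℤ, κ ≠ 0 → ∀ (d : Dat) (ε : ℝ), 0 < ε → ∃ (C : ℝ) (X₀ : ℕ), ∀ X : ℕ, X₀ ≤ X → ∀ (k : ℕ) (S : Type) (τ : S → ℕ → S) (o : S → ℕ → ℕ), Transducer a b L τ o →
    ∀ (left : Bool) (s : S) (c : ℤ),
      Mostly (range (a ^ k)) (wt a k) (val a b τ o left k s c κ) (C * (Real.log X / X)) (fun n => ∀ x : ℕ, X ≤ x → x ^ W ≤ b ^ k →
        |(cntZ d n x : ℝ) - d.A * (Nat.primeCounting x : ℝ)| ≤ ε * (Nat.primeCounting x : ℝ)) := by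
  obtain ⟨γ, hγ0, hγ1, hdec⟩ := tr_decays a b L hb hL
  obtain ⟨W, hW, HK⟩ := dat_all b hb (L + 1) γ hγ0 hγ1
  refine ⟨W, hW, fun κ hκ d ε hε => ?_⟩
  obtain ⟨C, X₀, hC, hX₀, J⟩ := HK (b.factorial * (b ^ L).factorial) κ
    (Nat.mul_pos (Nat.factorial_pos _) (Nat.factorial_pos _)) hκ d ε hε
  refine ⟨C, X₀, fun X hX k S τ o hTr left s c E hE hbad => ?_⟩
  refine J k X hX ℕ (range (a ^ k)) (wt a k) _ (hdec S τ o hTr left s k κ c) E hE fun i hi => ?_
  have h1 := hbad i hi
  push Not at h1
  exact h1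

open Classical in
/-- Let `b ≥ 2` and `L ≥ 1`. There is `W` such that for all `κ ≠ 0` the following two assertions hold for all `k`. Let an arbitrary transducer be given which reads digits `< a` and writes digits `< b` (with finitely or infinitely many
states) such that from every state two words of `L` digits lead to the same state, while different words are written; let it
begin in an arbitrary state `s` and read from the left or from the right, and
let `c` be any integer. `T(v)` is the integer which is written when `v` is read.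

(1) Let `q ≥ 1`, let `A` be a set of residue classes prime to `q`, and let `m ≥ 1`, `D ≠ 0` and `ε > 0`. There are `C` and
`X₀` such that for all `X ≥ X₀` all the `v < a ^ k`, with at most `C (log X / X) a ^ k` exceptions, have the following
property, with `n = c + κ T(v)`: for EVERY `x ≥ X` with `x ^ W ≤ b ^ k`, the number of the primes `p ≤ x` whose class modulo `q`
belongs to `A` and modulo which the index of `⟨D n ^ 2⟩` divides `m` is `δ π(x)` up to an error of at most `ε π(x)`, where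
`δ = δ q A m D` is Lenstra's series (with the entanglement of the quadratic field of `D`).

(2) Let `(F, C, m)` be as in Q1, let `W₀` be a finitely generated subgroup of `ℚˣ`, `D ∈ ℚˣ`, and `r ≥ 1` such that
`ℓ ^ (ν_ℓ(m) + 1)` divides `r` for all primes `ℓ ∣ r` (every `r` if `m = 1`), `ε > 0`. There are `C'`, `P` and `X₀` such
that for all `X ≥ X₀` all the `v < a ^ k`, with at most `C' (log X / X) a ^ k` exceptions, have the following property, if
`n = c + κ T(v)` is positive and exactly divisible by some prime `p > P`: for EVERY `x ≥ X` with `x ^ W ≤ b ^ k`, the number of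
the primes up to `x` in `𝒮(F, C, ⟨W₀, D n ^ r⟩, m)` is `δ(F, C, ⟨W₀, D n ^ r⟩, m) π(x)` up to an error of at most `ε π(x)`. -/
theorem result (a b L : ℕ) (hb : 2 ≤ b) (hL : 1 ≤ L) : ∃ W : ℕ, 1 ≤ W ∧ ∀ κ : ℤ, κ ≠ 0 →
    (∀ (q : ℕ) [NeZero q] (A : Finset (ZMod q)ˣ) (m : ℕ), 1 ≤ m → ∀ D : ℤ, D ≠ 0 → ∀ ε : ℝ, 0 < ε →
      ∃ (C : ℝ) (X₀ : ℕ), ∀ X : ℕ, X₀ ≤ X → ∀ (k : ℕ) (S : Type) (τ : S → ℕ → S) (o : S → ℕ → ℕ), Transducer a b L τ o →
    ∀ (left : Bool) (s : S) (c : ℤ),
        (((range (a ^ k)).filter fun v => ¬ Holds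
          (EntangledOnAverage.S q A m (D * (c + κ * (image a b τ o left k s v : ℕ)) ^ 2)) (EntangledOnAverage.δ q A m D)
          ε X W (b ^ k)).card : ℝ) ≤ C * (Real.log X / X) * (a : ℝ) ^ k) ∧
    (∀ (F : IntermediateField ℚ (AlgebraicClosure ℚ)) [NumberField F] [IsGalois ℚ F]
      (C : Set (F ≃ₐ[ℚ] F)) (W₀ : Subgroup ℚˣ) (m : ℕ) (D : ℚˣ) (r : ℕ),
      (∀ σ ∈ C, ∀ τ : F ≃ₐ[ℚ] F, τ * σ * τ⁻¹ ∈ C) → W₀.FG → 0 < m →
      0 < r → (∀ l : ℕ, l.Prime → l ∣ r → l ^ (m.factorization l + 1) ∣ r) →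
      ∀ ε : ℝ, 0 < ε → ∃ (C' : ℝ) (P X₀ : ℕ), ∀ X : ℕ, X₀ ≤ X → ∀ (k : ℕ) (S : Type) (τ : S → ℕ → S) (o : S → ℕ → ℕ), Transducer a b L τ o →
    ∀ (left : Bool) (s : S) (c : ℤ),
        (((range (a ^ k)).filter fun v => ¬ (Generic P (c + κ * (image a b τ o left k s v : ℕ)) →
          Holds (FewExceptions.S F C (W₀ ⊔ Subgroup.closure
              {w : ℚˣ | (w : ℚ) = (D : ℚ) * ((c + κ * (image a b τ o left k s v : ℕ) : ℤ) : ℚ) ^ r}) m)
            (FewExceptions.δ F C (W₀ ⊔ Subgroup.closure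
              {w : ℚˣ | (w : ℚ) = (D : ℚ) * ((c + κ * (image a b τ o left k s v : ℕ) : ℤ) : ℚ) ^ r}) m)
            ε X W (b ^ k))).card : ℝ) ≤ C' * (Real.log X / X) * (a : ℝ) ^ k) := by
  classical
  obtain ⟨W, hW, H⟩ := dat_tr a b L hb hL
  refine ⟨W, hW, fun κ hκ => ⟨fun q _ A m hm D hD ε hε => ?_, fun F _ _ C W₀ m D r hC hW₀ hm hr hrm ε hε => ?_⟩⟩
  · have hfD : NeZero (Pool.Agent.H981R3.LN2.fD q D) := ⟨Pool.Agent.H981R3.LN2.fD_ne hD⟩
    obtain ⟨C, X₀, h⟩ := H κ hκ (Pool.Agent.H981R3.LN2.dLen2 q A m (by omega) D hD) ε hε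
    refine ⟨C, X₀, fun X hX k S τ o hTr left s c => ?_⟩
    have ha : 0 < a := by
      have := two_le hTr s
      omega
    refine card_of_mostly ha (h X hX k S τ o hTr left s c) (R := fun n : ℤ => Holds
          (EntangledOnAverage.S q A m (D * n ^ 2)) (EntangledOnAverage.δ q A m D) ε X W (b ^ k)) fun n hn x hx1 hx2 => ?_
    have h5 := hn x hx1 hx2
    have e : EntangledOnAverage.S q A m (D * n ^ 2) x =
        cntZ (Pool.Agent.H981R3.LN2.dLen2 q A m (by omega) D hD) n x := by
      unfold cntZ Pool.Agent.H386R2.Artin.PP EntangledOnAverage.S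
      rw [filter_filter]
      apply congrArg Finset.card
      apply Finset.filter_congr_decidable _ _ _ |>.symm.trans
      apply Finset.filter_congr
      intro p _
      simp only [Pool.Agent.H981R3.LN2.dLen2, Int.cast_mul, Int.cast_pow]
      rfl
    rw [e, EntangledOnAverage.δ_eq q A m D]
    exact h5
  · obtain ⟨d, hd⟩ := Pool.Agent.W171.LG.coreR F C W₀ m D hC hW₀ hm.ne' hr hrm
    obtain ⟨P0, x0, hcore⟩ := hd ε hε
    obtain ⟨C', X₀, h⟩ := H κ hκ d (ε / 2) (by positivity)
    refine ⟨C', P0, X₀ + x0, fun X hX k S τ o hTr left s c => ?_⟩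
    have ha : 0 < a := by
      have := two_le hTr s
      omega
    refine card_of_mostly ha (h X (by omega) k S τ o hTr left s c) (R := fun n : ℤ => Generic P0 n →
          Holds (FewExceptions.S F C (W₀ ⊔ Subgroup.closure {w : ℚˣ | (w : ℚ) = (D : ℚ) * (n : ℚ) ^ r}) m)
            (FewExceptions.δ F C (W₀ ⊔ Subgroup.closure {w : ℚˣ | (w : ℚ) = (D : ℚ) * (n : ℚ) ^ r}) m)
            ε X W (b ^ k)) fun n hn hgen x hx1 hx2 => ?_
    obtain ⟨hn0, p, hp, hpP, hpn, hp2⟩ := hgen
    obtain ⟨n', rfl⟩ : ∃ n' : ℕ, n = n' := ⟨n.toNat, (Int.toNat_of_nonneg hn0.le).symm⟩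
    have hn0' : n' ≠ 0 := by omega
    have hG : Pool.Agent.W171.LG.Gen P0 n' := ⟨p, hp, hpP, by exact_mod_cast hpn, fun h => hp2 (by exact_mod_cast h)⟩
    by_contra hcon
    push Not at hcon
    have h5 := hn x hx1 hx2
    rw [cntZ_nat] at h5
    rw [Int.cast_natCast, Pool.Agent.W171.LG.gp_eqR W₀ D r hn0'] at hcon
    have h6 := hcore n' hn0' hG x (by omega) hcon
    linarith

end Pool.Agent.Results.MP_48b1c3_nt.TransducerGenerators
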